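import Mathlib
import Pool.Agent.Lib.MP_2f2b65_an.NotWUR

set_option autoImplicit false

open Filter Topology

namespace Pool.Agent.Results.MP_2f2b65_an.ThreeSpaceWUR

/-- A seminorm `N` on the normed space `E` is an equivalent norm if `c ‖x‖ ≤ N x ≤ C ‖x‖` for some
positive constants `c`, `C`. -/
def IsEquivalentNorm (E : Type) [SeminormedAddCommGroup E] [NormedSpace ℝ E]
    (N : Seminorm ℝ E) : Prop :=
  ∃ c C : ℝ, 0 < c ∧ 0 < C ∧ ∀ x, c * ‖x‖ ≤ N x ∧ N x ≤ C * ‖x‖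

/-- `N` is weakly uniformly rotund: if `(x_n)`, `(y_n)` lie in the unit ball of `N` and
`N (x_n + y_n) → 2`, then `x_n - y_n → 0` in the weak topology of `E`. -/
def IsWUR (E : Type) [SeminormedAddCommGroup E] [NormedSpace ℝ E] (N : Seminorm ℝ E) : Prop :=
  ∀ x y : ℕ → E, (∀ n, N (x n) ≤ 1) → (∀ n, N (y n) ≤ 1) →
    Tendsto (fun n => N (x n + y n)) atTop (𝓝 2) →
    Tendsto (fun n => toWeakSpace ℝ E (x n - y n)) atTop (𝓝 0)

/-- `E` admits an equivalent weakly uniformly rotund norm. -/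
def WURRenormable (E : Type) [SeminormedAddCommGroup E] [NormedSpace ℝ E] : Prop :=
  ∃ N : Seminorm ℝ E, IsEquivalentNorm E N ∧ IsWUR E N

theorem tendsto_weak_iff (E : Type) [SeminormedAddCommGroup E] [NormedSpace ℝ E] (z : ℕ → E) :
    Tendsto (fun n => toWeakSpace ℝ E (z n)) atTop (𝓝 0) ↔
      ∀ f : E →L[ℝ] ℝ, Tendsto (fun n => f (z n)) atTop (𝓝 0) := by
  have h : (𝓝 (0 : WeakSpace ℝ E)) =
      Filter.comap (fun (x : WeakSpace ℝ E) (f : E →L[ℝ] ℝ) => (topDualPairing ℝ E).flip x f)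
        (𝓝 (fun f : E →L[ℝ] ℝ => (topDualPairing ℝ E).flip (0 : E) f)) :=
    nhds_induced _ _
  rw [h, tendsto_comap_iff, tendsto_pi_nhds]
  refine forall_congr' fun f => ?_
  have h0 : (topDualPairing ℝ E).flip (0 : E) f = 0 := by simp
  rw [h0]
  rfl

theorem wurable_iff (E : Type) [SeminormedAddCommGroup E] [NormedSpace ℝ E] :
    WURRenormable E ↔ Pool.Agent.MP_2f2b65.WURable E := by
  constructor
  · rintro ⟨N, ⟨c, C, hc, hC, h⟩, hw⟩
    refine ⟨N, map_add_le_add N, fun r a => ?_, ⟨c, C, hc, hC, h⟩, ?_⟩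
    · rw [map_smul_eq_mul, Real.norm_eq_abs]
    · intro u v hu hv huv f
      exact (tendsto_weak_iff E _).1 (hw u v hu hv huv) f
  · rintro ⟨N, h1, h2, h3, h4⟩
    refine ⟨Seminorm.of N h1 (fun r a => by rw [h2, Real.norm_eq_abs]), h3, ?_⟩
    intro x y hx hy hxy
    exact (tendsto_weak_iff E _).2 (h4 x y hx hy hxy)

/-- Negative answer to the three-space problem for WUR renormability. -/
theorem result :
    ∃ (X : Type) (_ : NormedAddCommGroup X) (_ : NormedSpace ℝ X) (_ : CompleteSpace X)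
      (Y : Submodule ℝ X),
      IsClosed (Y : Set X) ∧ Nonempty (Y ≃ₗᵢ[ℝ] lp (fun _ : ℕ → ℕ => ℝ) 2) ∧
        WURRenormable Y ∧ WURRenormable (X ⧸ Y) ∧ ¬ WURRenormable X := by
  refine ⟨Pool.Agent.MP_2f2b65.XX, inferInstance, inferInstance, inferInstance,
    Pool.Agent.MP_2f2b65.YY, Pool.Agent.MP_2f2b65.isClosed_YY, ?_,
    (wurable_iff _).2 Pool.Agent.MP_2f2b65.wurable_YY,
    (wurable_iff _).2 Pool.Agent.MP_2f2b65.wurable_QQ,
    fun h => Pool.Agent.MP_2f2b65.not_wurable_XX ((wurable_iff _).1 h)⟩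
  exact ⟨(Pool.Agent.MP_2f2b65.J.equivRange).symm⟩

end Pool.Agent.Results.MP_2f2b65_an.ThreeSpaceWUR
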